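import Pool.Agent.H41.OZ.B

/-!
# The maximum oriented zero forcing number: connected counterexamples of every order at least 30

For every `n ≥ 30` there is a connected graph `G` of order `n` all of whose orientations `D` satisfy
`F D < n / 2`, so `MOF G < n / 2`; more precisely
`MOF G ≤ 14 ⌊n / 30⌋ + ⌈(n mod 30) / 2⌉ ≤ 7 n / 15 + 22 / 15`, and `MOF G ≤ 7 n / 15` if `30` divides
`n`.

The graph is a path of copies of the truncated Petersen graph (order 30, `MOF ≤ 14`) and of short
paths, each joined to the next by an edge. In an orientation the additional edges give an order of the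
pieces in which every additional arc points to a piece which is coloured before; so the forcing sets of
the pieces together are a forcing set.
-/

set_option autoImplicit false

namespace Pool.Agent.Results.MP_ad37e1_co.EveryOrder

open Pool.Agent.H41.OZ

/-- For every `n ≥ 30` there is a connected graph of order `n` with `MOF G < n / 2`, with the bound
`14 ⌊n / 30⌋ + ⌈(n mod 30) / 2⌉`. -/
theorem result : ∀ n : ℕ, 30 ≤ n → ∃ G : SimpleGraph (Fin n), G.Connected ∧
    (∀ D : Fin n → Fin n → Prop, IsOrientation G D → (F D : ℚ) < (n : ℚ) / 2) ∧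
    (MOF G : ℚ) < (n : ℚ) / 2 ∧ MOF G ≤ 14 * (n / 30) + (n % 30 + 1) / 2 := by
  intro n hn
  obtain ⟨G, hG, h⟩ := exists_fin (by omega) (good_all hn)
  have key : ∀ m : ℕ, m ≤ 14 * (n / 30) + (n % 30 + 1) / 2 → (m : ℚ) < (n : ℚ) / 2 := by
    intro m hm
    have h1 : 2 * m < n := by omega
    have h2 : (2 : ℚ) * m < n := by exact_mod_cast h1
    linarith
  have hM : MOF G ≤ 14 * (n / 30) + (n % 30 + 1) / 2 := by
    refine csSup_le' ?_
    rintro m ⟨D, hD, rfl⟩
    exact h D hD
  exact ⟨G, hG, fun D hD => key _ (h D hD), key _ hM, hM⟩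

end Pool.Agent.Results.MP_ad37e1_co.EveryOrder
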